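import Mathlib
import Pool.Agent.H28.L2Ops

namespace Pool.Agent.Results.MP_24d2d6_an.NoCover

open Filter Topology Pool.Agent.H28.L2Ops

section defs
variable {X : Type} [NormedAddCommGroup X] [NormedSpace ℂ X]

/-- The set `Ω(T)`. -/
def Om (T : X →L[ℂ] X) : Set (X →L[ℂ] X) :=
  {h | ∃ w : ℕ → ℕ, StrictMono w ∧ (∀ n, 0 < w n) ∧ ∃ D : Set X, Dense D ∧
    ∀ x ∈ D, Tendsto (fun n => (T ^ w n) x) atTop (𝓝 (h x))}

/-- `T` is quasi-rigid. -/
def QuasiRigid (T : X →L[ℂ] X) : Prop :=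
  ∃ w : ℕ → ℕ, StrictMono w ∧ (∀ n, 0 < w n) ∧ ∃ D : Set X, Dense D ∧
    ∀ x ∈ D, Tendsto (fun n => (T ^ w n) x) atTop (𝓝 x)

/-- Closure in the strong operator topology (pointwise convergence). -/
def sotClosure (S : Set (X →L[ℂ] X)) : Set (X →L[ℂ] X) :=
  {h | (h : X → X) ∈ closure ((fun A : X →L[ℂ] X => (A : X → X)) '' S)}

end defs

/-- roots of unity -/
noncomputable def ω (j : ℕ) : ℂ := Complex.exp (((2 * Real.pi / 2 ^ (j + 1) : ℝ) : ℂ) * Complex.I)

theorem norm_ω (j : ℕ) : ‖ω j‖ = 1 := Complex.norm_exp_ofReal_mul_I _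

theorem ω_ne (j : ℕ) : ω j ≠ 0 := Complex.exp_ne_zero _

theorem prim (j : ℕ) : IsPrimitiveRoot (ω j) (2 ^ (j + 1)) := by
  have := Complex.isPrimitiveRoot_exp (2 ^ (j + 1)) (by positivity)
  convert this using 1
  unfold ω
  congr 1
  push_cast
  ring

theorem ω_pow (j m : ℕ) (h : j < m) : ω j ^ 2 ^ m = 1 :=
  ((prim j).pow_eq_one_iff_dvd _).2 (pow_dvd_pow 2 h)

theorem ω_sum (j m : ℕ) (h : j < m) : ∑ k ∈ Finset.range (2 ^ m), ω j ^ k = 0 := by
  have h1 : ω j ≠ 1 := (prim j).ne_one (Nat.one_lt_two_pow (by omega))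
  rw [geom_sum_eq h1, ω_pow j m h, sub_self, zero_div]

theorem re_sum (j n : ℕ) (h : 8 * n ≤ 2 ^ (j + 1)) :
    (n : ℝ) / 2 ≤ ‖∑ k ∈ Finset.range n, ω j ^ k‖ := by
  refine le_trans ?_ (Complex.re_le_norm _)
  rw [Complex.re_sum]
  have : ∀ k ∈ Finset.range n, (1 / 2 : ℝ) ≤ (ω j ^ k).re := by
    intro k hk
    have hk : k < n := Finset.mem_range.1 hk
    have h8 : (8 : ℝ) * k ≤ 2 ^ (j + 1) := by exact_mod_cast (by omega : 8 * k ≤ 2 ^ (j + 1))
    rw [ω, ← Complex.exp_nat_mul, ← mul_assoc, ← Complex.ofReal_natCast, ← Complex.ofReal_mul,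
      Complex.exp_ofReal_mul_I_re, ← Real.cos_pi_div_three]
    refine Real.cos_le_cos_of_nonneg_of_le_pi (by positivity) (by linarith [Real.pi_pos]) ?_
    rw [← mul_div_assoc, div_le_div_iff₀ (by positivity) (by norm_num)]
    nlinarith [Real.pi_pos, (Nat.cast_nonneg k : (0 : ℝ) ≤ k)]
  simpa [div_eq_mul_inv] using Finset.card_nsmul_le_sum _ _ _ this

/-- the space -/
abbrev E : Type := L2 ℂ × L2 ℂ

/-- the operator -/
noncomputable def T : E →L[ℂ] E :=
  ((diag ω 1 fun n => (norm_ω n).le).coprod (ContinuousLinearMap.id ℂ _)).prod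
    (ContinuousLinearMap.snd ℂ _ _)

/-- its inverse -/
noncomputable def S : E →L[ℂ] E :=
  ((diag (fun n => (ω n)⁻¹) 1 fun n => by simp [norm_ω]).comp
    (ContinuousLinearMap.fst ℂ _ _ - ContinuousLinearMap.snd ℂ _ _)).prod
    (ContinuousLinearMap.snd ℂ _ _)

theorem ST : S * T = 1 := by
  refine ContinuousLinearMap.ext fun x => Prod.ext (lp.ext (funext fun j => ?_)) rfl
  change (ω j)⁻¹ * (ω j * x.1 j + x.2 j - x.2 j) = x.1 j
  have := ω_ne j
  field_simp
  ring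

theorem TS : T * S = 1 := by
  refine ContinuousLinearMap.ext fun x => Prod.ext (lp.ext (funext fun j => ?_)) rfl
  change ω j * ((ω j)⁻¹ * (x.1 j - x.2 j)) + x.2 j = x.1 j
  have := ω_ne j
  field_simp
  ring

theorem STp (n : ℕ) : S ^ n * T ^ n = 1 := by
  induction n with
  | zero => simp
  | succ n ih => rw [pow_succ, pow_succ', mul_assoc, ← mul_assoc S, ST, one_mul, ih]

theorem T_pow (n : ℕ) (x : E) : ((T ^ n) x).2 = x.2 ∧
    ∀ j, ((T ^ n) x).1 j = ω j ^ n * x.1 j + (∑ k ∈ Finset.range n, ω j ^ k) * x.2 j := by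
  induction n with
  | zero => simp
  | succ n ih =>
    rw [pow_succ', ContinuousLinearMap.mul_apply]
    refine ⟨ih.1, fun j => ?_⟩
    change ω j * ((T ^ n) x).1 j + ((T ^ n) x).2 j = _
    rw [ih.1, ih.2, geom_sum_succ]
    ring

/-- finitely supported vectors -/
def D0 : Set (L2 ℂ) := {x | ∃ J, ∀ j, J ≤ j → x j = 0}

theorem dense0 : Dense D0 := fun x => by
  refine mem_closure_of_tendsto (lp.hasSum_single (by norm_num) x).tendsto_sum_nat
    (Eventually.of_forall fun n => ⟨n, fun j hj => ?_⟩)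
  rw [lp.coeFn_sum, Finset.sum_apply]
  refine Finset.sum_eq_zero fun i hi => ?_
  exact lp.single_apply_ne _ _ _ (by have := Finset.mem_range.1 hi; omega)

theorem sep : TopologicalSpace.SeparableSpace (L2 ℂ) := by
  have hd : Dense (Submodule.span ℂ (Set.range fun i : ℕ => (lp.single 2 i (1 : ℂ) : L2 ℂ)) :
      Set (L2 ℂ)) := fun x => by
    refine mem_closure_of_tendsto (lp.hasSum_single (by norm_num) x)
      (Eventually.of_forall fun s => Submodule.sum_mem _ fun i _ => ?_)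
    have : (lp.single 2 i (x i) : L2 ℂ) = x i • lp.single 2 i (1 : ℂ) := by
      rw [← lp.single_smul]; simp
    rw [this]
    exact Submodule.smul_mem _ _ (Submodule.subset_span ⟨i, rfl⟩)
  rw [← TopologicalSpace.isSeparable_univ_iff, ← hd.closure_eq]
  exact (Set.countable_range _).isSeparable.span.closure

theorem rig (x : E) (hx : x ∈ D0 ×ˢ D0) : ∀ᶠ m in atTop, (T ^ 2 ^ m) x = x := by
  obtain ⟨⟨J, hJ⟩, ⟨K, hK⟩⟩ := hx
  filter_upwards [eventually_ge_atTop J, eventually_ge_atTop K] with m h1 h2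
  refine Prod.ext (lp.ext (funext fun j => ?_)) (T_pow _ x).1
  rw [(T_pow _ x).2]
  rcases lt_or_ge j m with h | h
  · rw [ω_pow j m h, ω_sum j m h]; simp
  · rw [hJ j (by omega), hK j (by omega)]; simp

theorem mem (n : ℕ) : S ^ n ∈ Om T := by
  have hlt : ∀ m, n < 2 ^ (m + n) := fun m =>
    (Nat.lt_two_pow_self).trans_le (Nat.pow_le_pow_right (by norm_num) (by omega))
  refine ⟨fun m => 2 ^ (m + n) - n, fun a b hab => ?_, fun m => Nat.sub_pos_of_lt (hlt m),
    D0 ×ˢ D0, dense0.prod dense0, fun x hx => tendsto_const_nhds.congr' ?_⟩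
  · have : 2 ^ (a + n) < 2 ^ (b + n) := Nat.pow_lt_pow_right (by norm_num) (by omega)
    have := hlt a
    simp only
    omega
  · filter_upwards [(tendsto_add_atTop_nat n).eventually (rig x hx)] with m hm
    have : T ^ 2 ^ (m + n) = T ^ n * T ^ (2 ^ (m + n) - n) := by
      rw [← pow_add]; congr 1; have := hlt m; omega
    conv_lhs => rw [← hm, this, ← ContinuousLinearMap.mul_apply, ← mul_assoc, STp, one_mul]

/-- the slowly decaying vector -/
noncomputable def c : L2 ℂ := ⟨fun j => ((√((1 / 2) ^ j) : ℝ) : ℂ), (mem_iff _).2 (by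
  refine (summable_geometric_two).congr fun j => ?_
  rw [Complex.norm_real, Real.norm_eq_abs, sq_abs, Real.sq_sqrt (by positivity)])⟩

theorem grow (z : E) (hz : z.2 = c) (n : ℕ) (hn : 0 < n) :
    √n / 8 - ‖z‖ ≤ ‖(T ^ n) z‖ := by
  set j := Nat.log 2 n + 3
  have h1 : 8 * n ≤ 2 ^ (j + 1) := by
    have := Nat.lt_pow_succ_log_self (b := 2) (by norm_num) n
    simp only [j, pow_succ] at this ⊢
    omega
  have h2 : (2 : ℝ) ^ j ≤ 16 * n := by
    have := Nat.pow_log_le_self 2 hn.ne'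
    exact_mod_cast (by simp only [j, pow_succ]; omega : 2 ^ j ≤ 16 * n)
  have a1 : ‖((T ^ n) z).1 j‖ ≤ ‖(T ^ n) z‖ :=
    (lp.norm_apply_le_norm (by norm_num) _ j).trans (norm_fst_le _)
  have a2 : ‖ω j ^ n * z.1 j‖ ≤ ‖z‖ := by
    rw [norm_mul, norm_pow, norm_ω, one_pow, one_mul]
    exact (lp.norm_apply_le_norm (by norm_num) _ j).trans (norm_fst_le _)
  have a3 : √n / 8 ≤ ‖(∑ k ∈ Finset.range n, ω j ^ k) * z.2 j‖ := by
    rw [norm_mul, hz]
    refine le_trans ?_ (mul_le_mul_of_nonneg_right (re_sum j n h1) (norm_nonneg _))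
    change _ ≤ _ * ‖((√((1 / 2) ^ j) : ℝ) : ℂ)‖
    rw [Complex.norm_real, Real.norm_eq_abs, abs_of_nonneg (Real.sqrt_nonneg _)]
    refine le_of_sq_le_sq ?_ (by positivity)
    rw [mul_pow, div_pow, Real.sq_sqrt (by positivity), Real.sq_sqrt (by positivity), one_div_pow,
      mul_one_div, div_le_div_iff₀ (by positivity) (by positivity)]
    nlinarith [(Nat.cast_nonneg n : (0 : ℝ) ≤ n)]
  rw [(T_pow n z).2] at a1
  have := norm_sub_norm_le ((∑ k ∈ Finset.range n, ω j ^ k) * z.2 j) (-(ω j ^ n * z.1 j))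
  rw [norm_neg, sub_neg_eq_add, add_comm] at this
  linarith

theorem big (z : E) (hz : z.2 = c) (C : ℝ) : ∀ᶠ n in atTop, C < ‖(T ^ n) z‖ := by
  have : Tendsto (fun n : ℕ => √n) atTop atTop :=
    Real.tendsto_sqrt_atTop.comp tendsto_natCast_atTop_atTop
  filter_upwards [this.eventually_gt_atTop (8 * (C + ‖z‖)), eventually_gt_atTop 0] with n h1 h2
  linarith [grow z hz n h2]

theorem closed (z : E) (hz : z.2 = c) (y : E) (hy : y ∈ closure {v | ∃ n, 0 < n ∧ (T ^ n) z = v}) :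
    ∃ n, 0 < n ∧ (T ^ n) z = y := by
  obtain ⟨N, hN⟩ := eventually_atTop.1 (big z hz (‖y‖ + 1))
  have h1 := (Metric.isOpen_ball (x := (0 : E)) (ε := ‖y‖ + 1)).inter_closure
    ⟨by simp, hy⟩
  have hf : (Metric.ball (0 : E) (‖y‖ + 1) ∩ {v | ∃ n, 0 < n ∧ (T ^ n) z = v}).Finite := by
    refine ((Set.finite_lt_nat N).image fun n => (T ^ n) z).subset ?_
    rintro _ ⟨h, n, -, rfl⟩
    refine ⟨n, ?_, rfl⟩
    by_contra hn
    have := hN n (not_lt.1 hn)
    rw [mem_ball_zero_iff] at h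
    linarith
  rw [hf.isClosed.closure_eq] at h1
  exact h1.2

theorem result : ∃ (X : Type) (_ : NormedAddCommGroup X) (_ : NormedSpace ℂ X)
    (_ : CompleteSpace X) (_ : TopologicalSpace.SeparableSpace X) (T : X →L[ℂ] X),
    QuasiRigid T ∧ ∀ Λ : X →L[ℂ] X, ∃ h ∈ Om T,
      h ∉ sotClosure {A | ∃ n, 0 < n ∧ T ^ n * Λ = A} := by
  haveI := sep
  refine ⟨E, inferInstance, inferInstance, inferInstance, inferInstance, T,
    by simpa [Om, QuasiRigid] using mem 0, fun Λ => ?_⟩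
  by_contra hcon
  push Not at hcon
  let x : E := (0, c)
  have key : ∀ k, (S ^ k) x ∈ closure {v | ∃ n, 0 < n ∧ (T ^ n) (Λ x) = v} := fun k =>
    map_mem_closure (f := fun g : E → E => g x) (continuous_apply x) (hcon _ (mem k)) (by
      rintro _ ⟨_, ⟨n, hn, rfl⟩, rfl⟩
      exact ⟨n, hn, rfl⟩)
  have hz : (Λ x).2 = c := by
    have h0 := key 0
    have : closure {v | ∃ n, 0 < n ∧ (T ^ n) (Λ x) = v} ⊆ {v | v.2 = (Λ x).2} :=
      closure_minimal (by rintro _ ⟨n, -, rfl⟩; exact (T_pow n _).1)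
        (isClosed_eq continuous_snd continuous_const)
    exact (this h0).symm
  obtain ⟨n, -, hn⟩ := closed _ hz _ (key 0)
  obtain ⟨m, hm, hm'⟩ := closed _ hz _ (key n)
  rw [pow_zero, ContinuousLinearMap.one_apply] at hn
  have hp : (T ^ m) (Λ x) = Λ x := by
    rw [hm']
    conv_lhs => rw [← hn, ← ContinuousLinearMap.mul_apply, STp]
    rfl
  have hk : ∀ k, (T ^ (m * k)) (Λ x) = Λ x := by
    intro k
    induction k with
    | zero => simp
    | succ k ih => rw [Nat.mul_succ, pow_add, ContinuousLinearMap.mul_apply, hp, ih]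
  obtain ⟨N, hN⟩ := eventually_atTop.1 (big _ hz ‖Λ x‖)
  have := hN (m * N) (Nat.le_mul_of_pos_left N hm)
  rw [hk] at this
  exact lt_irrefl _ this

end Pool.Agent.Results.MP_24d2d6_an.NoCover
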